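import Mathlib

set_option autoImplicit false

/-!
# MP_b7f2db_gt: an SHD space whose Stone-Čech compactification is not SHD

Let `I` be a discrete space of size `𝔠` and let `W` be its one-point compactification. Let
`V n = W^ω × 2^𝔠`. For each sequence of basic boxes `v n` of `W^ω` and each `α ∈ 2^ω` we cut the
boxes down by one more condition: a coordinate, given by `α` and `n`, has the value coded by the
sequence and by `α`. The resulting clopen sets `b η` define a compactification `Z` of the sum of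
the spaces `V n`. A point of `V n` is in only countably many of the sets `b η`, and so each
sequence of points `z n ∈ V n` has a convergent subsequence in `Z`. Let `X` be the union of all the
`V n` and of the points of the remainder that are in the closures of uncountably many `b η`. Then
`X` is SHD, and `Z` is the Stone-Čech compactification of `X`.
-/

namespace Pool.Agent.Results.MP_b7f2db_gt.BetaNotSHD

open Set Filter Topology

/-- Selectively highly divergent spaces: for each sequence of nonempty open sets `U n` there are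
points `x n ∈ U n` such that no subsequence of `x` converges. -/
def SHD (Z : Type) [TopologicalSpace Z] : Prop :=
  ∀ U : ℕ → Set Z, (∀ n, IsOpen (U n) ∧ (U n).Nonempty) →
    ∃ x : ℕ → Z, (∀ n, x n ∈ U n) ∧
      ∀ φ : ℕ → ℕ, StrictMono φ → ∀ z : Z, ¬ Tendsto (fun k => x (φ k)) atTop (𝓝 z)

/-! ### The Cantor cube of weight `𝔠` -/

/-- The Cantor cube of weight `𝔠`. -/
abbrev Q : Type := Set ℕ → Bool

instance uncountable_set : Uncountable (Set ℕ) := by
  rw [← Cardinal.aleph0_lt_mk_iff, Cardinal.mk_set, Cardinal.mk_nat]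
  exact Cardinal.cantor _

instance uncountable_bool : Uncountable (ℕ → Bool) := by
  rw [← Cardinal.aleph0_lt_mk_iff]
  simpa using Cardinal.aleph0_lt_continuum

theorem code_injective (φ : ℕ → ℕ) (hφ : StrictMono φ) :
    Function.Injective fun A : Set ℕ => φ '' {k | k % 4 = 0 ∨ (k % 4 = 2 ∧ k / 4 ∈ A)} := by
  intro A A' h
  ext j
  have h1 : ∀ C : Set ℕ,
      φ (4 * j + 2) ∈ φ '' {k | k % 4 = 0 ∨ (k % 4 = 2 ∧ k / 4 ∈ C)} ↔ j ∈ C := by
    intro C
    rw [hφ.injective.mem_set_image]
    have h2 : (4 * j + 2) % 4 = 2 := by omega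
    have h3 : (4 * j + 2) / 4 = j := by omega
    simp [h2, h3]
  rw [← h1 A, ← h1 A']
  exact iff_of_eq (congrArg (fun S : Set ℕ => φ (4 * j + 2) ∈ S) h)

theorem shd_Q : SHD Q := by
  classical
  intro U hU
  have h1 : ∀ n, ∃ (s : Q) (F : Finset (Set ℕ)), ∀ q : Q, (∀ S ∈ F, q S = s S) → q ∈ U n := by
    intro n
    obtain ⟨s, hs⟩ := (hU n).2
    obtain ⟨F, u, hu, hF⟩ := isOpen_pi_iff.1 (hU n).1 s hs
    exact ⟨s, F, fun q hq => hF fun S hS => by rw [hq S hS]; exact (hu S hS).2⟩
  choose s F hF using h1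
  refine ⟨fun n S => if S ∈ F n then s n S else decide (n ∈ S), fun n => hF n _ fun S hS => ?_,
    fun φ hφ z hz => ?_⟩
  · simp [hS]
  · have hc : (⋃ n, (F n : Set (Set ℕ))).Countable :=
      countable_iUnion fun n => (F n).countable_toSet
    have hc' := hc.preimage_of_injOn (f := fun A : Set ℕ =>
      φ '' {k | k % 4 = 0 ∨ (k % 4 = 2 ∧ k / 4 ∈ A)}) (code_injective φ hφ).injOn
    obtain ⟨A, hA⟩ : ∃ A : Set ℕ, A ∉ (fun A : Set ℕ =>
        φ '' {k | k % 4 = 0 ∨ (k % 4 = 2 ∧ k / 4 ∈ A)}) ⁻¹' (⋃ n, (F n : Set (Set ℕ))) := by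
      by_contra hcon
      push Not at hcon
      exact not_countable_univ (hc'.mono fun A _ => hcon A)
    set S := φ '' {k | k % 4 = 0 ∨ (k % 4 = 2 ∧ k / 4 ∈ A)} with hS
    have hSF : ∀ n, S ∉ F n := fun n hn => hA (mem_iUnion.2 ⟨n, hn⟩)
    have h2 : Tendsto (fun k => (decide (φ k ∈ S) : Bool)) atTop (𝓝 (z S)) := by
      have h3 := (tendsto_pi_nhds.1 hz) S
      simpa [hSF] using h3
    rw [nhds_discrete, tendsto_pure] at h2
    obtain ⟨N, hN⟩ := eventually_atTop.1 h2
    have h4 := hN (4 * N) (by omega)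
    have h5 := hN (4 * N + 1) (by omega)
    have h6 : φ (4 * N) ∈ S := mem_image_of_mem _ (Or.inl (by omega))
    have h7 : φ (4 * N + 1) ∉ S := by
      rw [hS, hφ.injective.mem_set_image]
      rintro (h | h) <;> omega
    rw [← h4] at h5
    simp [h6, h7] at h5

/-! ### The spaces -/

/-- An index type of size `𝔠`. -/
def Idx : Type := ℕ → ℕ

instance : TopologicalSpace Idx := ⊥

instance : DiscreteTopology Idx := ⟨rfl⟩

instance : Inhabited Idx := ⟨fun _ => 0⟩

instance : Infinite Idx := inferInstanceAs (Infinite (ℕ → ℕ))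

instance : NoncompactSpace Idx :=
  ⟨fun h => Set.infinite_univ (isCompact_iff_finite.1 h)⟩

/-- The one-point compactification of a discrete space of size `𝔠`. -/
abbrev W : Type := OnePoint Idx

/-- The countable power of `W`. -/
abbrev P : Type := ℕ → W

/-- The sum of countably many copies of `P × Q`. -/
abbrev V : Type := ℕ × (P × Q)

/-- The indices of the clopen sets. -/
abbrev H : Type := (ℕ → ℕ) × (ℕ → ℕ → Idx) × (ℕ → Bool)

/-- The code of an index. -/
def code (η : H) : Idx := fun k =>
  Nat.pair (η.1 k) (Nat.pair ((η.2.1 k.unpair.1 k.unpair.2.unpair.1 : ℕ → ℕ) k.unpair.2.unpair.2)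
    (if η.2.2 k then 1 else 0))

theorem code_inj : Function.Injective code := by
  rintro ⟨m, t, α⟩ ⟨m', t', α'⟩ h
  have h1 : ∀ k : ℕ, m k = m' k ∧
      (t k.unpair.1 k.unpair.2.unpair.1 : ℕ → ℕ) k.unpair.2.unpair.2 =
      (t' k.unpair.1 k.unpair.2.unpair.1 : ℕ → ℕ) k.unpair.2.unpair.2 ∧ α k = α' k := by
    intro k
    have h2 := congrFun h k
    simp only [code] at h2
    rw [Nat.pair_eq_pair, Nat.pair_eq_pair] at h2
    refine ⟨h2.1, h2.2.1, ?_⟩
    have h3 := h2.2.2
    cases h4 : α k <;> cases h5 : α' k <;> simp_all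
  refine Prod.ext (funext fun k => (h1 k).1) (Prod.ext ?_ (funext fun k => (h1 k).2.2))
  funext a b
  show (t a b : ℕ → ℕ) = t' a b
  funext c
  have h2 := (h1 (Nat.pair a (Nat.pair b c))).2.1
  simpa using h2

/-- Eventually different functions. -/
def g (α : ℕ → Bool) (n : ℕ) : ℕ := Encodable.encode (List.ofFn fun i : Fin n => α i)

theorem g_ne {α β : ℕ → Bool} (h : α ≠ β) : ∃ N, ∀ n ≥ N, g α n ≠ g β n := by
  obtain ⟨i, hi⟩ := Function.ne_iff.1 h
  refine ⟨i + 1, fun n hn he => hi ?_⟩
  have h1 := List.ofFn_injective (Encodable.encode_injective he)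
  exact congrFun h1 ⟨i, hn⟩

/-- The clopen sets. -/
def B (η : H) (n : ℕ) : Set P :=
  {y | (∀ c < η.1 n, y c = (η.2.1 n c : W)) ∧ y (η.1 n + g η.2.2 n) = (code η : W)}

theorem isClopen_coe (i : Idx) : IsClopen ({(i : W)} : Set W) := by
  refine ⟨isClosed_singleton, ?_⟩
  rw [← image_singleton, OnePoint.isOpen_image_coe]
  exact isOpen_discrete _

theorem isClopen_coord (c : ℕ) (i : Idx) : IsClopen {y : P | y c = (i : W)} :=
  (isClopen_coe i).preimage (continuous_apply c)

theorem isClopen_B (η : H) (n : ℕ) : IsClopen (B η n) := by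
  have h1 : B η n = (⋂ c ∈ Finset.range (η.1 n), {y : P | y c = (η.2.1 n c : W)}) ∩
      {y : P | y (η.1 n + g η.2.2 n) = (code η : W)} := by
    ext y
    simp [B]
  rw [h1]
  exact (isClopen_biInter_finset fun c _ => isClopen_coord _ _).inter (isClopen_coord _ _)

open Classical in
/-- The indicator function of the set with the index `η`. -/
noncomputable def ind (η : H) (v : V) : Bool := decide (v.2.1 ∈ B η v.1)

theorem continuous_ind (η : H) : Continuous (ind η) := by
  rw [continuous_prod_of_discrete_left]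
  intro n
  rw [continuous_bool_rng true]
  have h1 : (fun x : P × Q => ind η (n, x)) ⁻¹' {true} = Prod.fst ⁻¹' B η n := by
    ext x
    simp [ind]
  rw [h1]
  exact (isClopen_B η n).preimage continuous_fst

theorem ind_true {η : H} {n : ℕ} {y : P} {q : Q} : ind η (n, (y, q)) = true ↔ y ∈ B η n := by
  simp [ind]

/-- The ambient compact space. -/
abbrev E : Type := OnePoint V × (H → Bool)

/-- The embedding of `V`. -/
noncomputable def e (v : V) : E := ((v : OnePoint V), fun η => ind η v)

theorem continuous_e : Continuous e :=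
  OnePoint.continuous_coe.prodMk (continuous_pi continuous_ind)

theorem mem_closure_iff' {T : Set V} {p : H → Bool} :
    ((OnePoint.infty, p) : E) ∈ closure (e '' T) ↔
      ∀ (D : Finset H) (N : ℕ), ∃ v ∈ T, N ≤ v.1 ∧ ∀ η ∈ D, ind η v = p η := by
  constructor
  · intro h D N
    have h1 : IsOpen (((fun v : V => (v : OnePoint V)) '' {v : V | v.1 < N})ᶜ) := by
      rw [OnePoint.isOpen_compl_image_coe]
      have h2 : {v : V | v.1 < N} = Iio N ×ˢ univ := by
        ext v
        simp
      rw [h2]
      exact ⟨(isClosed_discrete _).prod isClosed_univ, (finite_Iio N).isCompact.prod isCompact_univ⟩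
    have h2 : IsOpen ((D : Set H).pi fun η => ({p η} : Set Bool)) :=
      isOpen_set_pi D.finite_toSet fun η _ => isOpen_discrete _
    obtain ⟨z, hz, v, hvT, rfl⟩ := mem_closure_iff.1 h _ (h1.prod h2) ⟨by simp, by simp⟩
    refine ⟨v, hvT, ?_, fun η hη => ?_⟩
    · by_contra hcon
      exact hz.1 (mem_image_of_mem _ (not_le.1 hcon))
    · exact hz.2 η hη
  · intro h
    rw [mem_closure_iff]
    intro O hO hpO
    obtain ⟨O₁, O₂, hO₁, hO₂, hi, hp, hsub⟩ := isOpen_prod_iff.1 hO _ _ hpO
    obtain ⟨D, u, hu, hD⟩ := isOpen_pi_iff.1 hO₂ p hp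
    have h1 := ((OnePoint.isOpen_iff_of_mem hi).1 hO₁).2
    obtain ⟨N, hN⟩ := (h1.image (f := (Prod.fst : V → ℕ)) continuous_fst).bddAbove
    obtain ⟨v, hvT, hNv, hv⟩ := h D (N + 1)
    refine ⟨e v, hsub ⟨?_, hD fun η hη => ?_⟩, mem_image_of_mem _ hvT⟩
    · by_contra hcon
      have h2 : v.1 ≤ N := hN ⟨v, hcon, rfl⟩
      omega
    · show ind η v ∈ u η
      rw [hv η hη]
      exact (hu η hη).2

/-- The basic boxes. -/
theorem exists_box {O : Set P} (hO : IsOpen O) (hne : O.Nonempty) :
    ∃ (m : ℕ) (t : ℕ → Idx), ∀ y : P, (∀ c < m, y c = (t c : W)) → y ∈ O := by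
  obtain ⟨f, hf⟩ := hne
  obtain ⟨J, u, hu, hJ⟩ := isOpen_pi_iff.1 hO f hf
  have h1 : ∀ c : ℕ, ∃ i : Idx, c ∈ J → (i : W) ∈ u c := by
    intro c
    by_cases hc : c ∈ J
    · obtain ⟨i, hi⟩ := OnePoint.denseRange_coe.exists_mem_open (hu c hc).1 ⟨f c, (hu c hc).2⟩
      exact ⟨i, fun _ => hi⟩
    · exact ⟨default, fun h => absurd h hc⟩
  choose t ht using h1
  refine ⟨J.sup id + 1, t, fun y hy => hJ fun c hc => ?_⟩
  have h2 : c ≤ J.sup id := Finset.le_sup (f := id) hc
  rw [hy c (by omega)]
  exact ht c hc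

theorem step {T : Set V} (hT : IsOpen T) {p : H → Bool}
    (hp : ((OnePoint.infty, p) : E) ∈ closure (e '' T)) (D : Finset H) (N : ℕ) :
    ∃ (n m : ℕ) (t : ℕ → Idx) (q : Q), N ≤ n ∧ ∀ y : P, (∀ c < m, y c = (t c : W)) →
      (n, (y, q)) ∈ T ∧ ∀ η ∈ D, ind η (n, (y, q)) = p η := by
  obtain ⟨⟨n, y₀, q⟩, hv, hN, hD⟩ := mem_closure_iff'.1 hp D N
  have h1 : IsOpen {y : P | (n, (y, q)) ∈ T ∧ ∀ η ∈ D, ind η (n, (y, q)) = p η} := by
    have hc : Continuous fun y : P => ((n, (y, q)) : V) := by fun_prop
    have h2 : {y : P | (n, (y, q)) ∈ T ∧ ∀ η ∈ D, ind η (n, (y, q)) = p η} =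
        (fun y : P => ((n, (y, q)) : V)) ⁻¹' (T ∩ ⋂ η ∈ D, ind η ⁻¹' {p η}) := by
      ext y
      simp
    rw [h2]
    exact (hT.inter (isOpen_biInter_finset fun η _ =>
      (isOpen_discrete _).preimage (continuous_ind η))).preimage hc
  obtain ⟨m, t, hmt⟩ := exists_box h1 ⟨y₀, hv, hD⟩
  exact ⟨n, m, t, q, hN, fun y hy => hmt y hy⟩

/-- The key lemma. -/
theorem key {T : ℕ → Set V} (hT : ∀ k, IsOpen (T k)) {p : H → Bool}
    (hpc : {η | p η = true}.Countable)
    (hp : ∀ k, ((OnePoint.infty, p) : E) ∈ closure (e '' T k)) :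
    ∃ r : H → Bool, ¬ {η | r η = true}.Countable ∧
      ∀ S : Set V, (∀ K, ∃ k ≥ K, T k = S) → ((OnePoint.infty, r) : E) ∈ closure (e '' S) := by
  classical
  obtain ⟨f, hf⟩ := Set.countable_iff_exists_injOn.1 hpc
  have hFfin : ∀ k, {η : H | p η = true ∧ f η < k}.Finite := by
    intro k
    refine Set.Finite.of_finite_image ((finite_Iio k).subset ?_)
      (hf.mono fun η hη => hη.1)
    rintro _ ⟨η, hη, rfl⟩
    exact hη.2
  have h1 : ∀ (k N : ℕ) (C : Finset Idx), ∃ (n m : ℕ) (t : ℕ → Idx) (q : Q), N ≤ n ∧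
      ∀ y : P, (∀ c < m, y c = (t c : W)) → (n, (y, q)) ∈ T k ∧
        ∀ η, (p η = true ∧ f η < k) ∨ code η ∈ C → ind η (n, (y, q)) = p η := by
    intro k N C
    obtain ⟨n, m, t, q, hN, h⟩ := step (hT k) (hp k)
      ((hFfin k).toFinset ∪ C.preimage code code_inj.injOn) N
    refine ⟨n, m, t, q, hN, fun y hy => ⟨(h y hy).1, fun η hη => (h y hy).2 η ?_⟩⟩
    rcases hη with hη | hη
    · exact Finset.mem_union_left _ ((hFfin k).mem_toFinset.2 hη)
    · exact Finset.mem_union_right _ (Finset.mem_preimage.2 hη)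
  choose nF mF tF qF hN hF using h1
  -- the recursion
  let s : ℕ → ℕ × Finset Idx := fun k => Nat.rec (0, ∅) (fun k x =>
    (nF k x.1 x.2 + 1, x.2 ∪ (Finset.range (mF k x.1 x.2)).image (tF k x.1 x.2))) k
  have hs : ∀ k, s (k + 1) = (nF k (s k).1 (s k).2 + 1,
    (s k).2 ∪ (Finset.range (mF k (s k).1 (s k).2)).image (tF k (s k).1 (s k).2)) := fun k => rfl
  let nn : ℕ → ℕ := fun k => nF k (s k).1 (s k).2
  let mm : ℕ → ℕ := fun k => mF k (s k).1 (s k).2
  let tt : ℕ → ℕ → Idx := fun k => tF k (s k).1 (s k).2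
  let qq : ℕ → Q := fun k => qF k (s k).1 (s k).2
  have hnn : StrictMono nn := by
    refine strictMono_nat_of_lt_succ fun k => ?_
    have h2 : (s (k + 1)).1 ≤ nn (k + 1) := hN (k + 1) _ _
    rw [hs k] at h2
    exact h2
  have hC : ∀ j c, c < mm j → ∀ k, j < k → tt j c ∈ (s k).2 := by
    intro j c hc k hk
    induction k with
    | zero => omega
    | succ k ih =>
      rw [hs k]
      rcases Nat.lt_succ_iff_lt_or_eq.1 hk with h | h
      · exact Finset.mem_union_left _ (ih h)
      · subst h
        exact Finset.mem_union_right _ (Finset.mem_image.2 ⟨c, Finset.mem_range.2 hc, rfl⟩)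
  have hprop : ∀ k (y : P), (∀ c < mm k, y c = (tt k c : W)) → (nn k, (y, qq k)) ∈ T k ∧
      ∀ η, (p η = true ∧ f η < k) ∨ code η ∈ (s k).2 → ind η (nn k, (y, qq k)) = p η :=
    fun k => hF k _ _
  -- the new selection
  let M : ℕ → ℕ := Function.extend nn mm fun _ => 0
  let S : ℕ → ℕ → Idx := Function.extend nn tt fun _ _ => default
  have hM : ∀ k, M (nn k) = mm k := fun k => hnn.injective.extend_apply _ _ _
  have hS : ∀ k, S (nn k) = tt k := fun k => hnn.injective.extend_apply _ _ _
  let r : H → Bool := fun η => decide (p η = true ∨ ∃ α, η = (M, S, α))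
  refine ⟨r, fun hc => ?_, fun U hU => ?_⟩
  · have h2 : Function.Injective fun α : ℕ → Bool => ((M, S, α) : H) := by
      intro α β h
      simpa using h
    have h3 := (hc.preimage_of_injOn (f := fun α : ℕ → Bool => ((M, S, α) : H)) h2.injOn)
    refine not_countable_univ (h3.mono fun α _ => ?_)
    simp [r]
  · rw [mem_closure_iff']
    intro D N
    -- the conditions on `k`
    have e1 : ∀ᶠ k in atTop, N ≤ nn k :=
      (hnn.tendsto_atTop).eventually (eventually_ge_atTop N)
    have e2 : ∀ η ∈ D, ∀ᶠ k in atTop, f η < k := fun η _ => eventually_gt_atTop _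
    have e3 : ∀ η ∈ D, ∀ᶠ k in atTop, (∃ j c, c < mm j ∧ tt j c = code η) →
        code η ∈ (s k).2 := by
      intro η _
      by_cases h : ∃ j c, c < mm j ∧ tt j c = code η
      · obtain ⟨j, c, hc, hj⟩ := h
        filter_upwards [eventually_gt_atTop j] with k hk _
        rw [← hj]
        exact hC j c hc k hk
      · exact Eventually.of_forall fun k h' => absurd h' h
    have e4 : ∀ η ∈ D, ∀ η' ∈ D, ∀ᶠ k in atTop, g η.2.2 (nn k) = g η'.2.2 (nn k) →
        η.2.2 = η'.2.2 := by
      intro η _ η' _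
      by_cases h : η.2.2 = η'.2.2
      · exact Eventually.of_forall fun k _ => h
      · obtain ⟨K, hK⟩ := g_ne h
        filter_upwards [(hnn.tendsto_atTop).eventually (eventually_ge_atTop K)] with k hk h'
        exact absurd h' (hK _ hk)
    have e2' := (Filter.eventually_all_finset D).2 e2
    have e3' := (Filter.eventually_all_finset D).2 e3
    have e4' := (Filter.eventually_all_finset D).2
      fun η hη => (Filter.eventually_all_finset D).2 (e4 η hη)
    obtain ⟨K, hK⟩ := eventually_atTop.1 (e1.and (e2'.and (e3'.and e4')))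
    obtain ⟨k, hkK, hkU⟩ := hU K
    obtain ⟨k1, k2, k3, k4⟩ := hK k hkK
    -- the point
    let y : P := fun c => if h : ∃ η ∈ D, (∃ α, η = (M, S, α)) ∧ c = mm k + g η.2.2 (nn k)
      then ((code h.choose : Idx) : W) else if c < mm k then (tt k c : W) else OnePoint.infty
    have hy1 : ∀ c < mm k, y c = (tt k c : W) := by
      intro c hc
      have h : ¬ ∃ η ∈ D, (∃ α, η = (M, S, α)) ∧ c = mm k + g η.2.2 (nn k) := by
        rintro ⟨η, -, -, h⟩
        omega
      simp only [y, dif_neg h, if_pos hc]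
    have hy2 : ∀ η ∈ D, (∃ α, η = (M, S, α)) → y (mm k + g η.2.2 (nn k)) = (code η : W) := by
      intro η hη hα
      have h : ∃ η' ∈ D, (∃ α, η' = (M, S, α)) ∧
          mm k + g η.2.2 (nn k) = mm k + g η'.2.2 (nn k) := ⟨η, hη, hα, rfl⟩
      have h2 : y (mm k + g η.2.2 (nn k)) = ((code h.choose : Idx) : W) := by
        simp only [y, dif_pos h]
      rw [h2]
      obtain ⟨h3, ⟨β, hβ⟩, h4⟩ := h.choose_spec
      obtain ⟨α, hα⟩ := hα
      have h5 : η.2.2 = h.choose.2.2 := k4 η hη _ h3 (by omega)
      have h7 : η.2.2 = β := h5.trans (congrArg (fun x : H => x.2.2) hβ)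
      have h8 : η.2.2 = α := congrArg (fun x : H => x.2.2) hα
      have h6 : h.choose = η := by
        rw [hβ, ← h7, h8, ← hα]
      rw [h6]
    have hy3 : ∀ c i, y c = ((i : Idx) : W) →
        (∃ η ∈ D, (∃ α, η = (M, S, α)) ∧ i = code η) ∨ (∃ j c, c < mm j ∧ tt j c = i) := by
      intro c i hi
      by_cases h : ∃ η ∈ D, (∃ α, η = (M, S, α)) ∧ c = mm k + g η.2.2 (nn k)
      · left
        have h2 : y c = ((code h.choose : Idx) : W) := by
          simp only [y, dif_pos h]
        rw [h2] at hi
        exact ⟨h.choose, h.choose_spec.1, h.choose_spec.2.1, (OnePoint.coe_injective hi).symm⟩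
      · right
        by_cases hc : c < mm k
        · have h2 : y c = (tt k c : W) := by
            simp only [y, dif_neg h, if_pos hc]
          rw [h2] at hi
          exact ⟨k, c, hc, OnePoint.coe_injective hi⟩
        · have h2 : y c = (OnePoint.infty : W) := by
            simp only [y, dif_neg h, if_neg hc]
          rw [h2] at hi
          exact absurd hi (OnePoint.infty_ne_coe i)
    refine ⟨(nn k, (y, qq k)), ?_, k1, fun η hη => ?_⟩
    · rw [← hkU]
      exact (hprop k y hy1).1
    · by_cases hpη : p η = true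
      · rw [(hprop k y hy1).2 η (Or.inl ⟨hpη, k2 η hη⟩)]
        simp [r, hpη]
      · by_cases hα : ∃ α, η = (M, S, α)
        · have h2 : r η = true := by
            simp only [r, decide_eq_true_eq]
            exact Or.inr hα
          rw [h2, ind_true]
          refine ⟨fun c hc => ?_, ?_⟩
          · obtain ⟨α, rfl⟩ := hα
            simp only [hM] at hc
            simp only [hS]
            exact hy1 c hc
          · have h3 := hy2 η hη hα
            obtain ⟨α, rfl⟩ := hα
            simp only [hM]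
            exact h3
        · have h2 : r η = false := by
            simp only [r, decide_eq_false_iff_not]
            rintro (h | h)
            · exact hpη h
            · exact hα h
          rw [h2]
          by_cases hcode : code η ∈ (s k).2
          · rw [(hprop k y hy1).2 η (Or.inr hcode)]
            simpa using hpη
          · rw [← Bool.not_eq_true, ind_true]
            intro hmem
            rcases hy3 _ _ hmem.2 with ⟨η', -, hα', h3⟩ | h3
            · rw [code_inj h3] at hα
              exact hα hα'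
            · exact hcode (k3 η hη h3)

/-! ### The space -/

/-- The space: all points of `V`, and the points of the remainder that belong to the closures of
uncountably many of the clopen sets. -/
def XSet : Set E :=
  {z | z ∈ range e ∨ (z ∈ closure (range e) ∧ z.1 = OnePoint.infty ∧
    ¬ {η | z.2 η = true}.Countable)}

theorem eq_of_mem_closure {z : E} (hz : z ∈ closure (range e)) {v : V}
    (hv : z.1 = (v : OnePoint V)) : z = e v := by
  have h1 : (comap e (𝓝 z)).NeBot := by
    rw [comap_neBot_iff]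
    intro t ht
    obtain ⟨_, hx, v, rfl⟩ := mem_closure_iff_nhds.1 hz t ht
    exact ⟨v, hx⟩
  have h2 : Tendsto e (comap e (𝓝 z)) (𝓝 z) := tendsto_comap
  have h3 : Tendsto (fun v : V => (v : OnePoint V)) (comap e (𝓝 z)) (𝓝 (v : OnePoint V)) := by
    rw [← hv]
    exact (continuous_fst.tendsto z).comp h2
  have h4 : Tendsto (fun v : V => v) (comap e (𝓝 z)) (𝓝 v) :=
    OnePoint.isOpenEmbedding_coe.isInducing.tendsto_nhds_iff.2 h3
  exact tendsto_nhds_unique h2 ((continuous_e.tendsto v).comp h4)

theorem XSet_subset : XSet ⊆ closure (range e) := by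
  rintro z (h | h)
  · exact subset_closure h
  · exact h.1

/-- The embedding of `V` into the space. -/
noncomputable def eX (v : V) : XSet := ⟨e v, Or.inl ⟨v, rfl⟩⟩

theorem continuous_eX : Continuous eX := continuous_e.subtype_mk _

theorem image_eX (T : Set V) : Subtype.val '' (eX '' T) = e '' T := by
  rw [← image_comp]
  rfl

theorem denseRange_eX : DenseRange eX := by
  intro x
  rw [closure_subtype]
  have h1 : Subtype.val '' range eX = range e := by
    rw [← image_univ, image_eX, image_univ]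
  rw [h1]
  exact XSet_subset x.2

theorem shd_X : SHD XSet := by
  intro U hU
  have h1 : ∀ k, ∃ v : V, eX v ∈ U k := fun k => denseRange_eX.exists_mem_open (hU k).1 (hU k).2
  choose v hv using h1
  have hc : ∀ k, Continuous fun q : Q => eX ((v k).1, ((v k).2.1, q)) := by
    intro k
    exact continuous_eX.comp (by fun_prop)
  obtain ⟨q, hq, hq'⟩ := shd_Q (fun k => (fun q : Q => eX ((v k).1, ((v k).2.1, q))) ⁻¹' U k)
    fun k => ⟨(hU k).1.preimage (hc k), ⟨(v k).2.2, hv k⟩⟩
  refine ⟨fun k => eX ((v k).1, ((v k).2.1, q k)), hq, fun φ hφ z hz => ?_⟩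
  have hz' : Tendsto (fun k => e ((v (φ k)).1, ((v (φ k)).2.1, q (φ k)))) atTop (𝓝 z.1) :=
    (continuous_subtype_val.tendsto z).comp hz
  rcases z.2 with ⟨w, hw⟩ | ⟨-, -, hunc⟩
  · rw [← hw] at hz'
    have h2 : Tendsto (fun k => (((v (φ k)).1, ((v (φ k)).2.1, q (φ k))) : V)) atTop (𝓝 w) :=
      OnePoint.isOpenEmbedding_coe.isInducing.tendsto_nhds_iff.2
        ((continuous_fst.tendsto _).comp hz')
    exact hq' φ hφ w.2.2 (((continuous_snd.comp continuous_snd).tendsto w).comp h2)
  · apply hunc
    have h2 : {η | z.1.2 η = true} ⊆ ⋃ k, {η | (v (φ k)).2.1 ∈ B η (v (φ k)).1} := by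
      intro η hη
      have h3 : Tendsto (fun k => ind η ((v (φ k)).1, ((v (φ k)).2.1, q (φ k)))) atTop
          (𝓝 (z.1.2 η)) :=
        (((continuous_apply η).comp continuous_snd).tendsto _).comp hz'
      rw [nhds_discrete, tendsto_pure] at h3
      obtain ⟨k, hk⟩ := h3.exists
      rw [mem_ofPred_eq] at hη
      rw [hη, ind_true] at hk
      exact mem_iUnion.2 ⟨k, hk⟩
    refine (countable_iUnion fun k => ?_).mono h2
    have h3 : Function.Injective fun η : H => ((code η : Idx) : W) :=
      OnePoint.coe_injective.comp code_inj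
    refine ((countable_range (v (φ k)).2.1).preimage_of_injOn h3.injOn).mono ?_
    intro η hη
    exact ⟨_, hη.2⟩

theorem zero_mem_closure : ((OnePoint.infty, fun _ => false) : E) ∈ closure (range e) := by
  rw [← image_univ, mem_closure_iff']
  intro D N
  refine ⟨(N, (fun _ => OnePoint.infty, fun _ => false)), mem_univ _, le_rfl, fun η _ => ?_⟩
  rw [← Bool.not_eq_true, ind_true]
  intro h
  exact OnePoint.infty_ne_coe _ h.2

theorem zero_notMem : ((OnePoint.infty, fun _ => false) : E) ∉ XSet := by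
  rintro (⟨v, hv⟩ | ⟨-, -, h⟩)
  · exact OnePoint.coe_ne_infty v (congrArg Prod.fst hv)
  · exact h (by simp)

theorem not_compact : ¬ CompactSpace XSet := by
  intro h
  have h1 : IsClosed XSet := (isCompact_iff_compactSpace.2 h).isClosed
  have h2 : closure (range e) ⊆ XSet := h1.closure_subset_iff.2 fun z hz => Or.inl hz
  exact zero_notMem (h2 zero_mem_closure)

/-! ### The Stone-Čech compactification -/

/-- The map to the ambient space. -/
noncomputable def Φ : StoneCech XSet → E :=
  stoneCechExtend (continuous_subtype_val : Continuous (Subtype.val : XSet → E))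

theorem continuous_Φ : Continuous Φ := continuous_stoneCechExtend _

theorem Φ_unit (x : XSet) : Φ (stoneCechUnit x) = x.1 :=
  congrFun (stoneCechExtend_extends
    (continuous_subtype_val : Continuous (Subtype.val : XSet → E))) x

theorem range_Φ : range Φ = closure (range e) := by
  apply Subset.antisymm
  · have h1 : range Φ ⊆ closure (Φ '' range (stoneCechUnit : XSet → StoneCech XSet)) := by
      rw [← image_univ, ← denseRange_stoneCechUnit.closure_range]
      exact image_closure_subset_closure_image continuous_Φ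
    refine h1.trans (closure_minimal ?_ isClosed_closure)
    rintro _ ⟨_, ⟨x, rfl⟩, rfl⟩
    rw [Φ_unit]
    exact XSet_subset x.2
  · refine closure_minimal ?_ (isCompact_range continuous_Φ).isClosed
    rintro _ ⟨v, rfl⟩
    exact ⟨stoneCechUnit (eX v), Φ_unit _⟩

theorem exists_cluster {z : E} (hz : z ∈ closure (range e)) {U U' : Set XSet} (hU : IsOpen U)
    (hU' : IsOpen U') (h : z ∈ closure (Subtype.val '' U)) (h' : z ∈ closure (Subtype.val '' U')) :
    ∃ x : XSet, x ∈ closure U ∧ x ∈ closure U' := by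
  by_cases hzX : z ∈ XSet
  · exact ⟨⟨z, hzX⟩, by rwa [closure_subtype], by rwa [closure_subtype]⟩
  · have hinf : z.1 = OnePoint.infty := by
      by_contra hcon
      obtain ⟨v, hv⟩ := OnePoint.ne_infty_iff_exists.1 hcon
      exact hzX (Or.inl ⟨v, (eq_of_mem_closure hz hv.symm).symm⟩)
    have hc : {η | z.2 η = true}.Countable := by
      by_contra hcon
      exact hzX (Or.inr ⟨hz, hinf, hcon⟩)
    have hcl : ∀ O : Set XSet, IsOpen O → z ∈ closure (Subtype.val '' O) →
        z ∈ closure (e '' (eX ⁻¹' O)) := by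
      intro O hO hzO
      have h1 : O ⊆ closure (eX '' (eX ⁻¹' O)) := by
        rw [image_preimage_eq_inter_range]
        exact denseRange_eX.open_subset_closure_inter hO
      have h2 : Subtype.val '' O ⊆ closure (e '' (eX ⁻¹' O)) := by
        refine (image_mono h1).trans ?_
        rw [← image_eX]
        exact image_closure_subset_closure_image continuous_subtype_val
      exact closure_minimal h2 isClosed_closure hzO
    have hz2 : z = (OnePoint.infty, z.2) := Prod.ext hinf rfl
    obtain ⟨r, hr, hrS⟩ := key (T := fun k => if Even k then eX ⁻¹' U else eX ⁻¹' U')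
      (p := z.2) (fun k => by
        by_cases hk : Even k
        · simp only [hk, if_true]
          exact hU.preimage continuous_eX
        · simp only [hk, if_false]
          exact hU'.preimage continuous_eX) hc (fun k => by
        rw [← hz2]
        by_cases hk : Even k
        · simp only [hk, if_true]
          exact hcl U hU h
        · simp only [hk, if_false]
          exact hcl U' hU' h')
    have hr1 : ((OnePoint.infty, r) : E) ∈ closure (e '' (eX ⁻¹' U)) :=
      hrS _ fun K => ⟨2 * K, by omega, by simp⟩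
    have hr2 : ((OnePoint.infty, r) : E) ∈ closure (e '' (eX ⁻¹' U')) :=
      hrS _ fun K => ⟨2 * K + 1, by omega, by simp⟩
    have hrX : ((OnePoint.infty, r) : E) ∈ XSet :=
      Or.inr ⟨closure_mono (image_subset_range _ _) hr1, rfl, hr⟩
    have h3 : ∀ O : Set XSet, e '' (eX ⁻¹' O) ⊆ Subtype.val '' O := by
      rintro O _ ⟨v, hv, rfl⟩
      exact ⟨eX v, hv, rfl⟩
    refine ⟨⟨_, hrX⟩, ?_, ?_⟩
    · rw [closure_subtype]
      exact closure_mono (h3 U) hr1
    · rw [closure_subtype]
      exact closure_mono (h3 U') hr2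

theorem Φ_injective : Function.Injective Φ := by
  intro a b hab
  by_contra hne
  obtain ⟨f, hf⟩ : ∃ f : C(StoneCech XSet, ℝ), f a = 0 ∧ f b = 1 := by
    obtain ⟨f, hf0, hf1, -⟩ := exists_continuous_zero_one_of_isClosed
      (isClosed_singleton (x := a)) (isClosed_singleton (x := b))
      (by simpa using hne)
    exact ⟨f, hf0 rfl, hf1 rfl⟩
  have hfu : Continuous fun x : XSet => f (stoneCechUnit x) :=
    f.continuous.comp continuous_stoneCechUnit
  have hcl : ∀ (c : StoneCech XSet) (O : Set ℝ), IsOpen O → f c ∈ O →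
      Φ c ∈ closure (Subtype.val '' ((fun x : XSet => f (stoneCechUnit x)) ⁻¹' O)) := by
    intro c O hO hc
    have h1 : c ∈ closure (range (stoneCechUnit : XSet → StoneCech XSet) ∩ f ⁻¹' O) := by
      have h2 := denseRange_stoneCechUnit.open_subset_closure_inter
        (hO.preimage f.continuous) (show c ∈ f ⁻¹' O from hc)
      rwa [inter_comm] at h2
    have h3 := image_closure_subset_closure_image continuous_Φ (mem_image_of_mem Φ h1)
    refine closure_mono ?_ h3
    rintro _ ⟨_, ⟨⟨x, rfl⟩, hx⟩, rfl⟩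
    exact ⟨x, hx, (Φ_unit x).symm⟩
  obtain ⟨x, hx, hx'⟩ := exists_cluster (z := Φ a) (by rw [← range_Φ]; exact mem_range_self a)
    (isOpen_Iio.preimage hfu) (isOpen_Ioi.preimage hfu)
    (hcl a (Iio (1 / 3)) isOpen_Iio (by simp [hf.1]))
    (by rw [hab]; exact hcl b (Ioi (2 / 3)) isOpen_Ioi (by simp [hf.2]; norm_num))
  have h1 : f (stoneCechUnit x) ≤ 1 / 3 := by
    have h2 : closure ((fun x : XSet => f (stoneCechUnit x)) ⁻¹' Iio (1 / 3)) ⊆
        (fun x : XSet => f (stoneCechUnit x)) ⁻¹' Iic (1 / 3) :=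
      closure_minimal (preimage_mono Iio_subset_Iic_self) (isClosed_Iic.preimage hfu)
    exact h2 hx
  have h2 : 2 / 3 ≤ f (stoneCechUnit x) := by
    have h2 : closure ((fun x : XSet => f (stoneCechUnit x)) ⁻¹' Ioi (2 / 3)) ⊆
        (fun x : XSet => f (stoneCechUnit x)) ⁻¹' Ici (2 / 3) :=
      closure_minimal (preimage_mono Ioi_subset_Ici_self) (isClosed_Ici.preimage hfu)
    exact h2 hx'
  linarith

theorem not_shd_beta : ¬ SHD (StoneCech XSet) := by
  intro hS
  have hopen : ∀ n : ℕ, IsOpen (Φ ⁻¹' {z : E | ∃ v : V, v.1 = n ∧ (v : OnePoint V) = z.1}) := by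
    intro n
    refine IsOpen.preimage continuous_Φ ?_
    have h1 : {z : E | ∃ v : V, v.1 = n ∧ (v : OnePoint V) = z.1} =
        Prod.fst ⁻¹' ((fun v : V => (v : OnePoint V)) '' {v | v.1 = n}) := by
      ext z
      simp
    rw [h1]
    refine IsOpen.preimage continuous_fst (OnePoint.isOpen_image_coe.2 ?_)
    exact (isOpen_discrete ({n} : Set ℕ)).preimage continuous_fst
  obtain ⟨w, hw, hdiv⟩ := hS _ fun n => ⟨hopen n,
    ⟨stoneCechUnit (eX (n, (fun _ => OnePoint.infty, fun _ => false))), by
      rw [mem_preimage, Φ_unit]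
      exact ⟨_, rfl, rfl⟩⟩⟩
  choose v hvn hv using hw
  have hwe : ∀ n, Φ (w n) = e (v n) := fun n =>
    eq_of_mem_closure (by rw [← range_Φ]; exact mem_range_self _) (hv n).symm
  -- only countably many indices matter
  have hcount : (⋃ n, {η | (v n).2.1 ∈ B η (v n).1}).Countable := by
    refine countable_iUnion fun n => ?_
    have h3 : Function.Injective fun η : H => ((code η : Idx) : W) :=
      OnePoint.coe_injective.comp code_inj
    refine ((countable_range (v n).2.1).preimage_of_injOn h3.injOn).mono ?_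
    intro η hη
    exact ⟨_, hη.2⟩
  set H₀ := ⋃ n, {η | (v n).2.1 ∈ B η (v n).1} with hH₀
  have : Countable H₀ := hcount.to_subtype
  obtain ⟨a, φ, hφ, ha⟩ := CompactSpace.tendsto_subseq
    (fun (n : ℕ) (η : H₀) => ind η.1 (v n))
  classical
  let p : H → Bool := fun η => if h : η ∈ H₀ then a ⟨η, h⟩ else false
  have hlim : Tendsto (fun k => Φ (w (φ k))) atTop (𝓝 ((OnePoint.infty, p) : E)) := by
    simp only [hwe]
    refine Tendsto.prodMk_nhds ?_ ?_
    · refine (OnePoint.tendsto_coe_infty).comp ?_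
      rw [hasBasis_coclosedCompact.tendsto_right_iff]
      rintro K ⟨-, hK⟩
      obtain ⟨N, hN⟩ := (hK.image (f := (Prod.fst : V → ℕ)) continuous_fst).bddAbove
      filter_upwards [(hφ.tendsto_atTop).eventually (eventually_gt_atTop N)] with k hk hmem
      have h1 : (v (φ k)).1 ≤ N := hN ⟨_, hmem, rfl⟩
      rw [hvn] at h1
      omega
    · rw [tendsto_pi_nhds]
      intro η
      by_cases hη : η ∈ H₀
      · have h1 := (tendsto_pi_nhds.1 ha) ⟨η, hη⟩
        simpa [p, hη] using h1
      · have h1 : ∀ n, ind η (v n) = false := by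
          intro n
          rw [← Bool.not_eq_true]
          intro h
          exact hη (mem_iUnion.2 ⟨n, ind_true.1 h⟩)
        simp only [h1, p, dif_neg hη]
        exact tendsto_const_nhds
  have hmem : ((OnePoint.infty, p) : E) ∈ range Φ := by
    rw [range_Φ]
    refine mem_closure_of_tendsto hlim (Eventually.of_forall fun k => ?_)
    rw [hwe]
    exact mem_range_self _
  obtain ⟨b, hb⟩ := hmem
  have hemb := continuous_Φ.isClosedEmbedding Φ_injective
  refine hdiv φ hφ b (hemb.isInducing.tendsto_nhds_iff.2 ?_)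
  rw [hb]
  exact hlim

/-- There is a Tychonoff noncompact SHD space whose Stone-Čech compactification is not SHD. -/
theorem result : ∃ (X : Type) (_ : TopologicalSpace X), T35Space X ∧ ¬ CompactSpace X ∧ SHD X ∧
    ¬ SHD (StoneCech X) :=
  ⟨XSet, inferInstance, inferInstance, not_compact, shd_X, not_shd_beta⟩

end Pool.Agent.Results.MP_b7f2db_gt.BetaNotSHD
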